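import Pool.Agent.U708.RPC.Gau

/-!
# Gaussian moments of short sums of the Liouville function at the values of almost all polynomials

For almost all polynomials `f` of degree `d` and height `H`, the sums of `∏_{j ∈ J} λ(f(n + j))` over the
members of a family of mostly disjoint sets of `h` integers (for example consecutive intervals of length
`h`), divided by `√h`, have the moments of the standard normal distribution, up to the order `R`, where
`R |J| ≤ d`. The sets may be very short: `h ≥ (log H) ^ ε`, inside an interval of length `(log H) ^ A`.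

Proof. `TP975/LR` (starting files): the values of the Liouville function at up to `2 d + 1` arguments
behave like independent random signs for random polynomials of degree `d`, so that the variance of the
empirical moment is small; the case of consecutive intervals and all moments at once: `U708/RPC/Gau`.
-/

set_option autoImplicit false

namespace Pool.Agent.Results.MP_892e4c_nt.GaussianMoments

open Finset

/-- The Liouville function on the integers, with `λ(-n) = λ(n)` and `λ(0) = 0`. -/
noncomputable def liouville (n : ℤ) : ℝ := if n = 0 then 0 else (-1) ^ ArithmeticFunction.cardFactors n.natAbs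

/-- The value at `t` of the polynomial `f` with the coefficients `f 0, ..., f d`. -/
def value {d : ℕ} (f : Fin (d + 1) → ℤ) (t : ℤ) : ℤ := ∑ c, f c * t ^ (c : ℕ)

/-- The polynomials of degree at most `d` with coefficients in `[-H, H]`. -/
noncomputable def polynomials (d H : ℕ) : Finset (Fin (d + 1) → ℤ) := Fintype.piFinset fun _ => Icc (-(H : ℤ)) H

/-- The sum of `∏_{j ∈ J} λ(f(n + j))` over `n ∈ T`. -/
noncomputable def shortSum {d : ℕ} (J : Finset ℤ) (T : Finset ℤ) (f : Fin (d + 1) → ℤ) : ℝ :=
  ∑ n ∈ T, ∏ j ∈ J, liouville (value f (n + j))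

/-- The moment of order `r` of the standard normal distribution: `(r - 1)!!` if `r` is even, else `0`. -/
noncomputable def gaussianMoment (r : ℕ) : ℝ := if Even r then (Nat.doubleFactorial (r - 1) : ℝ) else 0

/-- The mean of the `r`-th powers of the normalised sums over the sets `T i`, `i < M`, of `h` integers. -/
noncomputable def empiricalMoment {d M : ℕ} (J : Finset ℤ) (h : ℕ) (T : Fin M → Finset ℤ) (r : ℕ)
    (f : Fin (d + 1) → ℤ) : ℝ := (∑ i, (shortSum J (T i) f / Real.sqrt h) ^ r) / M

open Classical in
/-- The polynomials for which one of the empirical moments of order `r ≤ R` differs by more than `δ` from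
the moment of the normal distribution. -/
noncomputable def exceptions {M : ℕ} (d H R : ℕ) (J : Finset ℤ) (h : ℕ) (T : Fin M → Finset ℤ) (δ : ℝ) :
    Finset (Fin (d + 1) → ℤ) :=
  (polynomials d H).filter (fun f => ∃ r ≤ R, δ < |empiricalMoment J h T r f - gaussianMoment r|)

open Classical in
/-- The number of the pairs `(i, i')` for which the sets `T i` and `T i'` are not disjoint. -/
noncomputable def meetingPairs {M : ℕ} (T : Fin M → Finset ℤ) : ℕ :=
  ((univ : Finset (Fin M × Fin M)).filter (fun p => ¬ Disjoint (T p.1) (T p.2))).card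

/-- **Gaussian moments of short sums of the Liouville function along almost all polynomials.** Let `k ≥ 1`,
`R k ≤ d`, and let `A` and `ε > 0` be given. There is `η > 0` such that for large `H` and for every set
`J ⊆ [-(log H) ^ A, (log H) ^ A]` of `k` shifts:

(I) let `T i`, `i < M`, be sets of `h ≥ (log H) ^ ε` integers in `[-(log H) ^ A, (log H) ^ A]` such that
at most `M ^ 2 / (log H) ^ ε` pairs of them meet. For all but at most the proportion `(log H) ^ (-η)` of
the polynomials `f` of degree at most `d` with coefficients in `[-H, H]`, all the empirical moments of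
order `r ≤ R` of the sums of `∏_{j ∈ J} λ(f(n + j))` over the sets `T i`, divided by `√h`, are the
moments of the normal distribution up to `(log H) ^ (-η)`;

(II) this holds for `M ≥ (log H) ^ ε` consecutive intervals of length `h ≥ (log H) ^ ε`, starting
at `x`, with `|x| + M h ≤ (log H) ^ A`. -/
theorem result (d A R k : ℕ) (hk : 1 ≤ k) (hR : R * k ≤ d) (ε : ℝ) (hε : 0 < ε) :
    (∃ η : ℝ, 0 < η ∧ ∃ H₀ : ℕ, ∀ H : ℕ, H₀ ≤ H →
      ∀ J : Finset ℤ, J.card = k → (∀ j ∈ J, |(j : ℝ)| ≤ Real.log H ^ A) →
      ∀ M h : ℕ, 1 ≤ M → Real.log H ^ ε ≤ h → ∀ T : Fin M → Finset ℤ, (∀ i, (T i).card = h) →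
      (∀ i, ∀ t ∈ T i, |(t : ℝ)| ≤ Real.log H ^ A) →
      (meetingPairs T : ℝ) ≤ (M : ℝ) ^ 2 / Real.log H ^ ε →
      ((exceptions d H R J h T (1 / Real.log H ^ η)).card : ℝ) ≤ (polynomials d H).card / Real.log H ^ η) ∧
    (∃ η : ℝ, 0 < η ∧ ∃ H₀ : ℕ, ∀ H : ℕ, H₀ ≤ H →
      ∀ J : Finset ℤ, J.card = k → (∀ j ∈ J, |(j : ℝ)| ≤ Real.log H ^ A) →
      ∀ (x : ℤ) (M h : ℕ), Real.log H ^ ε ≤ M → Real.log H ^ ε ≤ h →
      |(x : ℝ)| + M * h ≤ Real.log H ^ A →
      ((exceptions d H R J h (fun i : Fin M => Ioc (x + ((i : ℕ) : ℤ) * h) (x + (((i : ℕ) : ℤ) + 1) * h))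
        (1 / Real.log H ^ η)).card : ℝ) ≤ (polynomials d H).card / Real.log H ^ η) :=
  ⟨Pool.Agent.U708.RPC.gauss d A R k hk hR ε hε, Pool.Agent.U708.RPC.gauss_blk d A R k hk hR ε hε⟩

end Pool.Agent.Results.MP_892e4c_nt.GaussianMoments
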