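import Pool.Agent.U909.CH.Main

/-!
# Chowla's conjecture along `⌊α n ^ c⌋`, for all real `α` outside a set of dimension less than one

The polynomials `α X ^ d` with a real leading coefficient `α` in place of the integer polynomials: products of the
functions of Liouville and Moebius at the integers `⌊α n ^ c⌋ + h`, `h` in a finite set, where `c > 1` is real.
For all `α` outside a set of Hausdorff dimension less than `1` Chowla's conjecture along this sequence is equivalent to
Chowla's conjecture for the linear polynomials `n + h` themselves; and what is known for these (one factor: all powers of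
the logarithm; two factors: logarithmic means, Tao) holds along the sequence.

From the library: the mean value law for countable families of functions of slow growth (`Pool.Agent.Y854.GM.mean2`), the
bounds for one factor (`Pool.Agent.N791.C2`) and Tao's theorem on two-point correlations (`Pool.Agent.Y326`).
-/

set_option autoImplicit false

open Finset Filter Topology

namespace Pool.Agent.Results.MP_892e4c_nt.RealMonomials

/-- the Liouville function, `λ(-m) = λ(m)`, `λ(0) = 0` -/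
noncomputable def liouville (m : ℤ) : ℝ := if m = 0 then 0 else (-1) ^ ArithmeticFunction.cardFactors m.natAbs

/-- the Moebius function, `μ(-m) = μ(m)`, `μ(0) = 0` -/
noncomputable def moebius (m : ℤ) : ℝ := ((ArithmeticFunction.moebius m.natAbs : ℤ) : ℝ)

/-- the integer `⌊α n ^ c⌋` -/
noncomputable def val (α c : ℝ) (n : ℕ) : ℤ := ⌊α * (n : ℝ) ^ c⌋

/-- the product of the `λ(m + h)`, `h ∈ H`, the `μ(m + i)`, `i ∈ I`, and the `μ(m + k) ^ 2`, `k ∈ K`, for the integers
`m ≡ r mod q`; `0` for the others -/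
noncomputable def term (H I K : Finset ℤ) (q : ℕ) (r m : ℤ) : ℝ :=
  if m ≡ r [ZMOD q] then (∏ h ∈ H, liouville (m + h)) * (∏ i ∈ I, moebius (m + i)) * ∏ k ∈ K, moebius (m + k) ^ 2 else 0

/-- the mean value of `s` is `0` -/
def MeanZero (s : ℕ → ℝ) : Prop := Tendsto (fun N : ℕ => (∑ n ∈ Icc 1 N, s n) / N) atTop (𝓝 0)

/-- the logarithmic mean value of `s` is `0` -/
def LogMeanZero (s : ℕ → ℝ) : Prop := Tendsto (fun N : ℕ => (∑ n ∈ Icc 1 N, s n / n) / Real.log N) atTop (𝓝 0)

/-- the sum of `s n` over `1 ≤ n ≤ N` is `O(N ^ (1 - δ))` with some `δ > 0` -/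
def PowerSaving (s : ℕ → ℝ) : Prop := ∃ δ : ℝ, 0 < δ ∧ ∃ N0 : ℕ, ∀ N : ℕ, N0 ≤ N → |∑ n ∈ Icc 1 N, s n| ≤ (N : ℝ) ^ (1 - δ)

/-- **Chowla's conjecture along `⌊α n ^ c⌋`.** Let `c > 1` be real. There is a set `E` of real numbers of Hausdorff
dimension less than `1` such that for all real `α > 0`, `α ∉ E`:

1. for all finite sets `H`, `I`, `K` of integers and all residue classes `r mod q` the product of the `λ(m + h)`,
  `μ(m + i)`, `μ(m + k) ^ 2` over the class has mean value zero along `m = ⌊α n ^ c⌋`, `n = 1, 2, ...`, if and only if this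
  holds along `m = 1, 2, ...`; the same for logarithmic means and for power savings;
2. the sums of `λ(⌊α n ^ c⌋ + k)` and of `μ(⌊α n ^ c⌋ + k)` over the `n ≤ N` with `⌊α n ^ c⌋ ≡ r mod q` are smaller than
  `N / (log N) ^ A` for every `A`, for all `k`, `q ≥ 1`, `r`;
3. `λ(⌊α n ^ c⌋ + k) λ(⌊α n ^ c⌋ + k')` and `μ(⌊α n ^ c⌋ + k) μ(⌊α n ^ c⌋ + k')` have logarithmic mean value zero for all
  `k ≠ k'`;
4. the `n` with `λ(⌊α n ^ c⌋ + k) = e` and `λ(⌊α n ^ c⌋ + k') = e'` have logarithmic density `1 / 4` for all `k ≠ k'` and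
  all signs `e`, `e'`. -/
theorem result (c : ℝ) (hc : 1 < c) : ∃ E : Set ℝ, dimH E < 1 ∧ ∀ α : ℝ, 0 < α → α ∉ E →
    (∀ (H I K : Finset ℤ) (q : ℕ) (r : ℤ),
      (MeanZero (fun n => term H I K q r (val α c n)) ↔ MeanZero (fun m => term H I K q r m)) ∧
      (LogMeanZero (fun n => term H I K q r (val α c n)) ↔ LogMeanZero (fun m => term H I K q r m)) ∧
      (PowerSaving (fun n => term H I K q r (val α c n)) ↔ PowerSaving (fun m => term H I K q r m))) ∧
    (∀ f : ℤ → ℝ, f = liouville ∨ f = moebius → ∀ (k : ℤ) (q : ℕ) (r : ℤ), 1 ≤ q → ∀ A : ℕ, ∃ N0 : ℕ, ∀ N : ℕ, N0 ≤ N →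
      |∑ n ∈ (Icc 1 N).filter (fun n => val α c n ≡ r [ZMOD q]), f (val α c n + k)| ≤ N / Real.log N ^ A) ∧
    (∀ f : ℤ → ℝ, f = liouville ∨ f = moebius → ∀ k k' : ℤ, k ≠ k' →
      LogMeanZero (fun n => f (val α c n + k) * f (val α c n + k'))) ∧
    (∀ k k' : ℤ, k ≠ k' → ∀ e e' : ℝ, e = 1 ∨ e = -1 → e' = 1 ∨ e' = -1 →
      Tendsto (fun N : ℕ => (1 / Real.log N) * ∑ n ∈ (Icc 1 N).filter
        (fun n => liouville (val α c n + k) = e ∧ liouville (val α c n + k') = e'), 1 / (n : ℝ)) atTop (𝓝 (1 / 4))) := by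
  classical
  obtain ⟨κ, hκ, hκ1, h⟩ := Pool.Agent.Y854.GM.mean2 c hc
  obtain ⟨E, hE, hlaw⟩ := h (ι := (Finset ℤ × Finset ℤ × Finset ℤ) × ℕ × ℤ)
    (fun i t => term i.1.1 i.1.2.1 i.1.2.2 i.2.1 i.2.2 (t : ℤ))
  refine ⟨E, hE, fun α hα hαE => ?_⟩
  exact Pool.Agent.U909.CH.main hα hc fun H I K q r =>
    ⟨κ, hκ, hκ1, hlaw α hα hαE ((H, I, K), q, r) (Pool.Agent.U909.CH.grow H I K q r κ hκ)⟩

end Pool.Agent.Results.MP_892e4c_nt.RealMonomials
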