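import Pool.Agent.R459.Fam
import Pool.Agent.U471.RP.Joint
import Pool.Agent.U471.RP.LogNear

/-!
# The Liouville function at products of arbitrary polynomials and linear factors whose constant terms are near the values of real polynomials

Let `p i`, `i < s`, be real polynomials of degree at most `d i` whose coefficients of `t ^ (d i)` lie between
`(log N) ^ (-C)` and `(log N) ^ C`, with `|p i (m)| ≤ B N` for `m = 1, …, x i`, where `(log N) ^ C (x i) ^ (d i) ≥ N`; the
other coefficients are arbitrary. Let `g l` be at most `(log N) ^ T` integer polynomials of any degrees and `θ l` functions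
bounded by `1`. For almost all vectors `m` with `1 ≤ m i ≤ x i` and ALL vectors `h` of integers with
`|h i - p i (m i)| ≤ (log N) ^ W` the sums of `θ l (n) λ(F(n))`, `F` the product of `g l` and of the `α i X + h i` over a
nonempty set of indices, cancel up to any power of `log N`. The theorem is uniform in the `p i`.

Proof: an inverse theorem for Weyl sums (`Pool.Agent.H373R2.NB.IW_all`) shows that the integers near the values have, up to
powers of `log N`, the least possible additive energy of some order (`Pool.Agent.U471.RP.energy_real`); then the theorem of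
the starting files on correlations with one displaced factor (`Pool.Agent.R459.fam_near`) is applied in one coordinate with
weights which depend on the other coordinates, for every distance from the integer part (`Pool.Agent.U471.RP.log_near`).
-/

set_option autoImplicit false

namespace Pool.Agent.Results.MP_892e4c_nt.RealPolynomialConstants

open Finset Polynomial
open Pool.Agent.H373R2.T7 (exI liR liR_norm sup_liou)

/-- The Liouville function on the integers, `λ(-m) = λ(m)` and `λ(0) = 0`. -/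
def lam (m : ℤ) : ℤ := if m = 0 then 0 else (-1) ^ ArithmeticFunction.cardFactors m.natAbs

/-- The product of the polynomial `g` and of the linear polynomials `α i X + h i`, `i ∈ I`. -/
noncomputable def prodPoly {s : ℕ} (g : ℤ[X]) (α : Fin s → ℕ) (h : Fin s → ℤ) (I : Finset (Fin s)) : ℤ[X] :=
  g * ∏ i ∈ I, (C (α i : ℤ) * X + C (h i))

/-- The sum of `θ(n) λ(F(n))`, where `F` is the product of `g` and of the `α i X + h i`, `i ∈ I`, over the `1 ≤ n ≤ y` for
which all the `α i n + h i`, `i ∈ I`, are positive. -/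
noncomputable def lamSum {s : ℕ} (θ : ℕ → ℂ) (g : ℤ[X]) (α : Fin s → ℕ) (h : Fin s → ℤ) (I : Finset (Fin s))
    (y : ℕ) : ℂ :=
  ∑ n ∈ (Icc 1 y).filter (fun n : ℕ => ∀ i ∈ I, 0 < (α i : ℤ) * n + h i), θ n * (lam ((prodPoly g α h I).eval (n : ℤ)) : ℂ)

/-- For all nonempty sets `I` of indices, all `l`, and all `y` with `α i * y ≤ B N` for `i ∈ I`:
`|∑ n ≤ y, θ l n * λ(F(n))| ≤ N / (log N) ^ U`, where `F` is the product of `g l` and of the `α i X + h i`, `i ∈ I`. -/
def Small (B U N : ℕ) {s L : ℕ} (g : Fin L → ℤ[X]) (θ : Fin L → ℕ → ℂ) (α : Fin s → ℕ) (h : Fin s → ℤ) : Prop :=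
  ∀ I : Finset (Fin s), I.Nonempty → ∀ l, ∀ y : ℕ, (∀ i ∈ I, α i * y ≤ B * N) →
    ‖lamSum (θ l) (g l) α h I y‖ ≤ N / Real.log N ^ U

/-- The real polynomials `p` of degree at most `d`, with `(log N) ^ (-C) ≤ p_d ≤ (log N) ^ C` for the coefficient `p_d`
of `t ^ d`, and with `|p(m)| ≤ B N` for `m = 1, …, x`, where `(log N) ^ C x ^ d ≥ N`. -/
structure Normal (d B C N x : ℕ) (p : ℝ[X]) : Prop where
  degree : p.natDegree ≤ d
  lower : 1 / Real.log N ^ C ≤ p.coeff d
  upper : p.coeff d ≤ Real.log N ^ C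
  length : (N : ℝ) ≤ Real.log N ^ C * (x : ℝ) ^ d
  values : ∀ m ∈ Icc 1 x, |p.eval (m : ℝ)| ≤ B * N

open Classical in
/-- The number of the vectors `m` with `1 ≤ m i ≤ x i` such that some vector `h` of integers with
`|h i - p i (m i)| ≤ (log N) ^ W` for all `i` does not have the property `P`. -/
noncomputable def exceptions {s : ℕ} (P : (Fin s → ℤ) → Prop) (W N : ℕ) (x : Fin s → ℕ) (p : Fin s → ℝ[X]) : ℕ :=
  ((Fintype.piFinset fun i => Icc 1 (x i)).filter (fun m : Fin s → ℕ => ∃ h : Fin s → ℤ,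
    (∀ i, |(h i : ℝ) - (p i).eval (m i : ℝ)| ≤ Real.log N ^ W) ∧ ¬ P h)).card

lemma lam_mul (m n : ℤ) : lam (m * n) = lam m * lam n := by
  unfold lam
  by_cases hm : m = 0
  · simp [hm]
  · by_cases hn : n = 0
    · simp [hn]
    · rw [if_neg (mul_ne_zero hm hn), if_neg hm, if_neg hn, Int.natAbs_mul,
        ArithmeticFunction.cardFactors_mul (Int.natAbs_ne_zero.2 hm) (Int.natAbs_ne_zero.2 hn), pow_add]

lemma lam_one : lam 1 = 1 := by
  unfold lam
  simp

lemma lam_prod {ι : Type} (I : Finset ι) (f : ι → ℤ) : lam (∏ i ∈ I, f i) = ∏ i ∈ I, lam (f i) := by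
  classical
  induction I using Finset.induction_on with
  | empty => simp [lam_one]
  | insert a t ha ih => rw [prod_insert ha, prod_insert ha, lam_mul, ih]

lemma lam_norm (m : ℤ) : ‖(lam m : ℂ)‖ ≤ 1 := by
  unfold lam
  split_ifs
  · simp
  · push_cast
    simp

lemma exI_pos (m : ℤ) (h : 0 < m) : exI liR m = (lam m : ℂ) := by
  unfold exI liR lam
  rw [if_pos (by omega), if_neg (by omega)]
  have e : m.toNat = m.natAbs := by omega
  rw [e]
  push_cast
  rfl

lemma exI_nonpos (m : ℤ) (h : ¬ 0 < m) : exI liR m = 0 := by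
  unfold exI
  rw [if_neg (by omega)]

lemma exI_norm (m : ℤ) : ‖exI liR m‖ ≤ 1 := by
  unfold exI
  split_ifs
  · exact liR_norm _
  · simp

/-- the weights in one coordinate -/
noncomputable def wt {s : ℕ} (θ : ℕ → ℂ) (g : ℤ[X]) (α : Fin s → ℕ) (h : Fin s → ℤ) (J : Finset (Fin s)) (n : ℕ) : ℂ :=
  θ n * (lam (g.eval (n : ℤ)) : ℂ) * ∏ j ∈ J, exI liR (((α j * n : ℕ) : ℤ) + h j)

lemma wt_norm {s : ℕ} (θ : ℕ → ℂ) (hθ : ∀ n, ‖θ n‖ ≤ 1) (g : ℤ[X]) (α : Fin s → ℕ) (h : Fin s → ℤ) (J : Finset (Fin s))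
    (n : ℕ) : ‖wt θ g α h J n‖ ≤ 1 := by
  unfold wt
  rw [norm_mul, norm_mul, norm_prod]
  have h1 := hθ n
  have h2 := lam_norm (g.eval (n : ℤ))
  have h3 : ∏ j ∈ J, ‖exI liR (((α j * n : ℕ) : ℤ) + h j)‖ ≤ 1 :=
    prod_le_one (fun _ _ => norm_nonneg _) fun _ _ => exI_norm _
  have h4 : ‖θ n‖ * ‖(lam (g.eval (n : ℤ)) : ℂ)‖ ≤ 1 * 1 := mul_le_mul h1 h2 (norm_nonneg _) zero_le_one
  have h5 : ‖θ n‖ * ‖(lam (g.eval (n : ℤ)) : ℂ)‖ * ∏ j ∈ J, ‖exI liR (((α j * n : ℕ) : ℤ) + h j)‖ ≤ 1 * 1 * 1 :=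
    mul_le_mul h4 h3 (prod_nonneg fun _ _ => norm_nonneg _) (by norm_num)
  simpa using h5

lemma wt_congr {s : ℕ} (θ : ℕ → ℂ) (g : ℤ[X]) (α : Fin s → ℕ) (h h' : Fin s → ℤ) (J : Finset (Fin s))
    (hh : ∀ j ∈ J, h j = h' j) (n : ℕ) : wt θ g α h J n = wt θ g α h' J n := by
  unfold wt
  congr 1
  exact prod_congr rfl fun j hj => by rw [hh j hj]

lemma lamSum_eq {s : ℕ} (θ : ℕ → ℂ) (g : ℤ[X]) (α : Fin s → ℕ) (h : Fin s → ℤ) (I : Finset (Fin s)) (i : Fin s)
    (hi : i ∈ I) (y : ℕ) : lamSum θ g α h I y =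
      ∑ n ∈ Icc 1 y, wt θ g α h (I.erase i) n * exI liR (((α i * n : ℕ) : ℤ) + h i) := by
  classical
  unfold lamSum wt
  rw [sum_filter]
  apply sum_congr rfl
  intro n _
  have e1 : (∏ j ∈ I.erase i, exI liR (((α j * n : ℕ) : ℤ) + h j)) * exI liR (((α i * n : ℕ) : ℤ) + h i) =
      ∏ j ∈ I, exI liR (((α j * n : ℕ) : ℤ) + h j) := prod_erase_mul _ _ hi
  rw [mul_assoc, e1]
  split_ifs with hc
  · have e2 : (prodPoly g α h I).eval (n : ℤ) = g.eval (n : ℤ) * ∏ j ∈ I, (((α j * n : ℕ) : ℤ) + h j) := by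
      unfold prodPoly
      rw [eval_mul, eval_prod]
      simp
    rw [e2, lam_mul, lam_prod]
    push_cast
    rw [mul_assoc]
    congr 2
    apply prod_congr rfl
    intro j hj
    have h3 := hc j hj
    have h4 := exI_pos (((α j * n : ℕ) : ℤ) + h j) (by push_cast; exact h3)
    push_cast at h4
    exact h4.symm
  · push Not at hc
    obtain ⟨j, hj, hj0⟩ := hc
    rw [prod_eq_zero hj, mul_zero]
    exact exI_nonpos _ (by push_cast; omega)

/-- the law in one coordinate -/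
lemma one (d : ℕ) (hd : 1 ≤ d) (B C W V : ℕ) : ∃ N₀ : ℕ, ∀ N : ℕ, N₀ ≤ N → ∀ (a : ℕ) (w : ℕ → ℂ), 1 ≤ a →
    (∀ n, ‖w n‖ ≤ 1) → ∀ (x : ℕ) (p : ℝ[X]), Normal d B C N x p → ∀ S ⊆ Icc 1 x,
    (∀ m ∈ S, ∃ h : ℤ, |(h : ℝ) - p.eval (m : ℝ)| ≤ Real.log N ^ W ∧ ∃ y : ℕ, a * y ≤ B * N ∧
      (N : ℝ) / Real.log N ^ V < ‖∑ n ∈ Icc 1 y, w n * exI liR (((a * n : ℕ) : ℤ) + h)‖) →
    (S.card : ℝ) ≤ x / Real.log N ^ V := by
  classical
  obtain ⟨q, hq, hnear⟩ := Pool.Agent.U471.RP.log_near d hd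
  obtain ⟨N₁, h1⟩ := Pool.Agent.R459.fam_near liR liR_norm sup_liou q (B + 1) (6 * C + 2 * W + 1) 0 0 (V + W + 1)
  obtain ⟨N₂, h2⟩ := Pool.Agent.U471.RP.ev_log 1
  obtain ⟨N₀, h0⟩ := hnear B C W V (Θ := ℕ × (ℕ → ℂ)) (fun _ θ => 1 ≤ θ.1 ∧ ∀ n, ‖θ.2 n‖ ≤ 1)
    (fun N θ h => ∃ y : ℕ, θ.1 * y ≤ B * N ∧
      (N : ℝ) / Real.log N ^ V < ‖∑ n ∈ Icc 1 y, θ.2 n * exI liR (((θ.1 * n : ℕ) : ℤ) + h)‖) (N₁ + N₂)
    (fun N hN θ hθ x s hs hE S hSx hS => by
      have hL := h2 N (by omega)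
      have hL0 : 0 < Real.log (N : ℝ) := by linarith
      have key := h1 N (by omega) x s hs hE 1 (by simp) (fun _ => θ.1) (fun _ => θ.2) (fun _ _ => hθ.1)
        (fun _ _ n _ _ => by rw [pow_zero]; exact hθ.2 n) (fun m => m ∈ S) (fun m _ hm => by
          obtain ⟨y, hy, h3⟩ := hS m hm
          refine ⟨0, by simp, 0, one_pos, y, hy.trans (Nat.mul_le_mul_right _ (by omega)), ?_⟩
          rw [add_zero]
          refine lt_of_le_of_lt ?_ h3
          apply div_le_div_of_nonneg_left (Nat.cast_nonneg _) (by positivity)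
          exact pow_le_pow_right₀ hL (by omega))
      have e1 : (Icc 1 x).filter (fun m => m ∈ S) = S := by
        ext m
        rw [mem_filter]
        exact ⟨fun h => h.2, fun h => ⟨hSx h, h⟩⟩
      rw [e1] at key
      exact key)
  refine ⟨N₀, fun N hN a w ha hw x p hp S hSx hS => ?_⟩
  exact h0 N hN (a, w) ⟨ha, hw⟩ x p ⟨hp.degree, hp.lower, hp.upper, hp.length, hp.values⟩ S hSx hS

/-- **The Liouville function at products of polynomials and linear factors with constant terms near the values of real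
polynomials.** Let `s` and `d i ≥ 1`, `i < s`, be given, and let `B`, `C`, `T`, `U` and `W` be fixed. Let `N` be large. Let
`g l` be at most `(log N) ^ T` arbitrary polynomials with integer coefficients (of any degree), and let `θ l` be arbitrary
functions bounded by `1` (e.g. `1`, or additive characters, or the indicator functions of residue classes). Let `α i ≥ 1` be
arbitrary integers. For all `x i` and ALL real polynomials `p i` with `Normal (d i) B C N (x i) (p i)`: all the vectors `m` with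
`1 ≤ m i ≤ x i`, with at most `(∏ x i) / log ^ U N` exceptions, have the following property: for ALL the vectors `h` of
integers with `|h i - p i (m i)| ≤ (log N) ^ W`, all nonempty sets `I` of indices and all `l`,
`|∑ n ≤ y, θ l n * λ(F(n))| ≤ N / (log N) ^ U` for all `y ≤ B N / max (α i, i ∈ I)`, where `F` is the product of `g l` and of the
`α i X + h i`, `i ∈ I` (the sum is over the `n` for which these linear factors are positive). -/
theorem result (s : ℕ) (d : Fin s → ℕ) (hd : ∀ i, 1 ≤ d i) (B C T U W : ℕ) :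
    ∃ N₀ : ℕ, ∀ N : ℕ, N₀ ≤ N → ∀ (L : ℕ), (L : ℝ) ≤ Real.log N ^ T → ∀ (g : Fin L → ℤ[X]) (θ : Fin L → ℕ → ℂ),
      (∀ l n, ‖θ l n‖ ≤ 1) → ∀ α : Fin s → ℕ, (∀ i, 1 ≤ α i) →
      ∀ (x : Fin s → ℕ) (p : Fin s → ℝ[X]), (∀ i, Normal (d i) B C N (x i) (p i)) →
      (exceptions (Small B U N g θ α) W N x p : ℝ) ≤ (∏ i, (x i : ℝ)) / Real.log N ^ U := by
  classical
  obtain ⟨V, hV⟩ : ∃ V : ℕ, V = U + (W + 1) * s + T + 1 := ⟨_, rfl⟩
  choose N₁ h1 using fun i => one (d i) (hd i) B C W V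
  obtain ⟨M₁, hM₁⟩ : ∃ M₁, M₁ = ∑ i, N₁ i := ⟨_, rfl⟩
  have hM : ∀ i, N₁ i ≤ M₁ := fun i => by
    rw [hM₁]; exact single_le_sum (f := N₁) (fun _ _ => Nat.zero_le _) (mem_univ i)
  obtain ⟨N₂, h2⟩ := Pool.Agent.U471.RP.ev_log (s * 2 ^ s + 5)
  refine ⟨M₁ + N₂, fun N hN L hL g θ hθ α hα x p hp => ?_⟩
  have hl := h2 N (by omega)
  obtain ⟨l, hld⟩ : ∃ l, l = Real.log (N : ℝ) := ⟨_, rfl⟩
  rw [← hld] at hl hL
  have hs0 : (0 : ℝ) ≤ s * 2 ^ s := by positivity
  have hl5 : 5 ≤ l := by linarith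
  have hl0 : 0 < l := by linarith
  have hl1 : 1 ≤ l := by linarith
  -- the exceptional vectors for `i`, `I` and `t`
  obtain ⟨box, hbox⟩ : ∃ box : Finset (Fin s → ℕ), box = Fintype.piFinset fun i => Icc 1 (x i) := ⟨_, rfl⟩
  obtain ⟨Bad, hBad⟩ : ∃ Bad : Finset (Fin s) → Fin L → (Fin s → ℕ) → Prop, Bad = fun I t m => ∃ h : Fin s → ℤ,
      (∀ i, |(h i : ℝ) - (p i).eval (m i : ℝ)| ≤ l ^ W) ∧ ∃ y : ℕ, (∀ i ∈ I, α i * y ≤ B * N) ∧
      (N : ℝ) / l ^ U < ‖lamSum (θ t) (g t) α h I y‖ := ⟨_, rfl⟩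
  have hone : ∀ i : Fin s, ∀ I : Finset (Fin s), i ∈ I → ∀ t : Fin L,
      ((box.filter (Bad I t)).card : ℝ) ≤ (∏ i, (x i : ℝ)) * (l ^ ((W + 1) * s) / l ^ V) := by
    intro i I hiI t
    apply Pool.Agent.U471.RP.card_fib x i (box.filter (Bad I t)) (by rw [hbox]; exact filter_subset _ _) _ (by positivity)
    intro q hq
    obtain ⟨M, hMd⟩ : ∃ M : ℕ, M = ⌊l ^ W⌋₊ + 1 := ⟨_, rfl⟩
    have hlW : 1 ≤ l ^ W := one_le_pow₀ hl1
    have hMle : (M : ℝ) ≤ l ^ W + 1 := by
      rw [hMd]; push_cast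
      have := Nat.floor_le (by positivity : 0 ≤ l ^ W)
      linarith
    obtain ⟨Tq, hTq⟩ : ∃ Tq : Finset (Fin s → ℤ), Tq = Fintype.piFinset fun j =>
        Icc (⌊(p j).eval (q j : ℝ)⌋ - M) (⌊(p j).eval (q j : ℝ)⌋ + M) := ⟨_, rfl⟩
    have hTc : (Tq.card : ℝ) ≤ l ^ ((W + 1) * s) := by
      rw [hTq, Fintype.card_piFinset]
      push_cast
      have h3 : ∀ j : Fin s, ((Icc (⌊(p j).eval (q j : ℝ)⌋ - (M : ℤ)) (⌊(p j).eval (q j : ℝ)⌋ + M)).card : ℝ) ≤ l ^ (W + 1) := by
        intro j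
        rw [Int.card_Icc]
        have h4 : (⌊(p j).eval (q j : ℝ)⌋ + (M : ℤ) + 1 - (⌊(p j).eval (q j : ℝ)⌋ - (M : ℤ))).toNat = 2 * M + 1 := by omega
        rw [h4]
        push_cast
        rw [pow_succ]
        nlinarith
      calc ∏ j : Fin s, ((Icc (⌊(p j).eval (q j : ℝ)⌋ - (M : ℤ)) (⌊(p j).eval (q j : ℝ)⌋ + M)).card : ℝ)
          ≤ ∏ _j : Fin s, l ^ (W + 1) := prod_le_prod (fun _ _ => Nat.cast_nonneg _) fun j _ => h3 j
        _ = l ^ ((W + 1) * s) := by rw [prod_const, card_univ, Fintype.card_fin, ← pow_mul]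
    obtain ⟨F, hF⟩ : ∃ F : (Fin s → ℤ) → Finset ℕ, F = fun τ => (Icc 1 (x i)).filter (fun m : ℕ =>
        ∃ h : ℤ, |(h : ℝ) - (p i).eval (m : ℝ)| ≤ Real.log N ^ W ∧ ∃ y : ℕ, α i * y ≤ B * N ∧
        (N : ℝ) / Real.log N ^ V < ‖∑ n ∈ Icc 1 y, wt (θ t) (g t) α τ (I.erase i) n * exI liR (((α i * n : ℕ) : ℤ) + h)‖) :=
      ⟨_, rfl⟩
    have hFc : ∀ τ ∈ Tq, ((F τ).card : ℝ) ≤ x i / l ^ V := by
      intro τ _
      have h3 := h1 i N ((hM i).trans (by omega)) (α i) (wt (θ t) (g t) α τ (I.erase i)) (hα i)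
        (wt_norm _ (hθ t) _ _ _ _) (x i) (p i) (hp i) (F τ) (by rw [hF]; exact filter_subset _ _)
        (fun m hm => by rw [hF] at hm; exact (mem_filter.1 hm).2)
      rw [← hld] at h3
      exact h3
    have hsub : (Icc 1 (x i)).filter (fun m => Function.update q i m ∈ box.filter (Bad I t)) ⊆ Tq.biUnion F := by
      intro m hm
      rw [mem_filter, mem_filter, hBad] at hm
      obtain ⟨hm1, hm2, h, hh, y, hy, hbig⟩ := hm
      rw [mem_biUnion]
      refine ⟨Function.update h i ⌊(p i).eval (q i : ℝ)⌋, ?_, ?_⟩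
      · rw [hTq, Fintype.mem_piFinset]
        intro j
        rcases eq_or_ne j i with rfl | hj
        · rw [Function.update_self, mem_Icc]
          constructor <;> omega
        · rw [Function.update_of_ne hj, mem_Icc]
          have h3 := hh j
          rw [Function.update_of_ne hj] at h3
          have h4 := abs_le.1 h3
          have h7 := Int.floor_le ((p j).eval (q j : ℝ))
          have h8 := Int.lt_floor_add_one ((p j).eval (q j : ℝ))
          have h9 : l ^ W < (⌊l ^ W⌋₊ : ℝ) + 1 := Nat.lt_floor_add_one _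
          rw [hMd]
          constructor
          · have h10 : (⌊(p j).eval (q j : ℝ)⌋ : ℝ) - ((⌊l ^ W⌋₊ : ℝ) + 1) < h j := by linarith
            have h11 : ⌊(p j).eval (q j : ℝ)⌋ - ((⌊l ^ W⌋₊ : ℤ) + 1) < h j := by exact_mod_cast h10
            push_cast
            omega
          · have h10 : (h j : ℝ) < ⌊(p j).eval (q j : ℝ)⌋ + ((⌊l ^ W⌋₊ : ℝ) + 1) + 1 := by linarith
            have h11 : h j < ⌊(p j).eval (q j : ℝ)⌋ + ((⌊l ^ W⌋₊ : ℤ) + 1) + 1 := by exact_mod_cast h10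
            push_cast
            omega
      · rw [hF, mem_filter]
        have h3 := hh i
        rw [Function.update_self] at h3
        refine ⟨hm1, h i, by rw [← hld]; exact h3, y, hy i hiI, ?_⟩
        rw [lamSum_eq (θ t) (g t) α h I i hiI y] at hbig
        rw [← hld]
        refine lt_of_le_of_lt ?_ (lt_of_lt_of_eq hbig ?_)
        · apply div_le_div_of_nonneg_left (Nat.cast_nonneg _) (by positivity)
          exact pow_le_pow_right₀ hl1 (by rw [hV]; omega)
        · congr 1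
          apply sum_congr rfl
          intro n _
          rw [wt_congr (θ t) (g t) α h (Function.update h i ⌊(p i).eval (q i : ℝ)⌋) (I.erase i) (fun j hj => by
            rw [Function.update_of_ne (ne_of_mem_erase hj)]) n]
    calc (((Icc 1 (x i)).filter (fun m => Function.update q i m ∈ box.filter (Bad I t))).card : ℝ)
        ≤ ((Tq.biUnion F).card : ℝ) := by exact_mod_cast card_le_card hsub
      _ ≤ ∑ τ ∈ Tq, ((F τ).card : ℝ) := by exact_mod_cast card_biUnion_le
      _ ≤ ∑ _τ ∈ Tq, (x i : ℝ) / l ^ V := sum_le_sum hFc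
      _ = Tq.card * (x i / l ^ V) := by rw [sum_const, nsmul_eq_mul]
      _ ≤ l ^ ((W + 1) * s) * (x i / l ^ V) := mul_le_mul_of_nonneg_right hTc (by positivity)
      _ = x i * (l ^ ((W + 1) * s) / l ^ V) := by ring
  have hcov : exceptions (Small B U N g θ α) W N x p ≤
      ∑ r ∈ (univ : Finset (Fin s)) ×ˢ ((univ : Finset (Finset (Fin s))) ×ˢ (univ : Finset (Fin L))),
        if r.1 ∈ r.2.1 then (box.filter (Bad r.2.1 r.2.2)).card else 0 := by
    unfold exceptions
    rw [← hbox]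
    have hsub : box.filter (fun m : Fin s → ℕ => ∃ h : Fin s → ℤ,
        (∀ i, |(h i : ℝ) - (p i).eval (m i : ℝ)| ≤ Real.log N ^ W) ∧ ¬ Small B U N g θ α h) ⊆
        ((univ : Finset (Fin s)) ×ˢ ((univ : Finset (Finset (Fin s))) ×ˢ (univ : Finset (Fin L)))).biUnion
          (fun r => if r.1 ∈ r.2.1 then box.filter (Bad r.2.1 r.2.2) else ∅) := by
      intro m hm
      rw [mem_filter] at hm
      obtain ⟨hm1, h, hh, hsm⟩ := hm
      unfold Small at hsm
      push Not at hsm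
      obtain ⟨I, ⟨i, hi⟩, t, y, hy, hbig⟩ := hsm
      rw [mem_biUnion]
      refine ⟨(i, I, t), by simp, ?_⟩
      rw [if_pos hi, mem_filter, hBad]
      refine ⟨hm1, h, fun j => ?_, y, hy, ?_⟩
      · rw [hld]; exact hh j
      · rw [hld]; exact hbig
    refine (card_le_card hsub).trans (card_biUnion_le.trans (le_of_eq ?_))
    apply sum_congr rfl
    intro r _
    split_ifs
    · rfl
    · exact card_empty
  have hX0 : (0 : ℝ) ≤ ∏ i, (x i : ℝ) := prod_nonneg fun _ _ => Nat.cast_nonneg _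
  rw [← hld]
  calc (exceptions (Small B U N g θ α) W N x p : ℝ)
      ≤ ∑ r ∈ (univ : Finset (Fin s)) ×ˢ ((univ : Finset (Finset (Fin s))) ×ˢ (univ : Finset (Fin L))),
        (if r.1 ∈ r.2.1 then ((box.filter (Bad r.2.1 r.2.2)).card : ℝ) else 0) := by
        have := (Nat.cast_le (α := ℝ)).2 hcov
        refine this.trans (le_of_eq ?_)
        push_cast
        apply sum_congr rfl
        intro r _
        split_ifs <;> simp
    _ ≤ ∑ _r ∈ (univ : Finset (Fin s)) ×ˢ ((univ : Finset (Finset (Fin s))) ×ˢ (univ : Finset (Fin L))),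
        (∏ i, (x i : ℝ)) * (l ^ ((W + 1) * s) / l ^ V) := by
        apply sum_le_sum
        intro r _
        split_ifs with hr
        · exact hone r.1 r.2.1 hr r.2.2
        · positivity
    _ = (s * 2 ^ s) * L * ((∏ i, (x i : ℝ)) * (l ^ ((W + 1) * s) / l ^ V)) := by
        rw [sum_const, nsmul_eq_mul, card_product, card_product, card_univ, card_univ, card_univ, Fintype.card_fin,
          Fintype.card_fin, Fintype.card_finset, Fintype.card_fin]
        push_cast
        ring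
    _ ≤ l * l ^ T * ((∏ i, (x i : ℝ)) * (l ^ ((W + 1) * s) / l ^ V)) := by
        apply mul_le_mul_of_nonneg_right _ (by positivity)
        exact mul_le_mul (by linarith) hL (Nat.cast_nonneg _) hl0.le
    _ = (∏ i, (x i : ℝ)) / l ^ U := by
        rw [hV]
        have e1 : l ^ (U + (W + 1) * s + T + 1) = l ^ U * l ^ ((W + 1) * s) * l ^ T * l := by
          rw [pow_succ, pow_add, pow_add]
        rw [e1]
        field_simp

end Pool.Agent.Results.MP_892e4c_nt.RealPolynomialConstants
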