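import Pool.Agent.U108.LV.B

set_option autoImplicit false

/-!
# The Liouville function at polynomial values, for arguments with restricted digits, in all initial segments and residue
# classes, with arbitrary coefficients, for almost all constant terms

Let `F_1, …, F_s` be polynomials with integer coefficients, one of them of degree at least two, and let `n` run through the
integers `< b ^ k` whose digits in base `b` are restricted to arbitrary sets of at least two digits, which may depend on the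
place. This set of arguments may be very sparse: it may have less than `(b ^ k) ^ ε` elements. Let `G` be an arbitrary bounded
function. Then for almost all vectors `c` of constant terms there is cancellation in the sum of `G(n) λ(f(n))`,
`f = (F_1 + c_1) ⋯ (F_s + c_s)`, over ALL initial segments of ALL residue classes with moduli up to `k ^ A`.

Method: by a multilinear inequality of Weyl type for disjoint windows of digits the values of a polynomial of degree at least
two have an additive energy of high order which is minimal up to a constant (`U108.DP.poly_energy`, new); the other factors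
and `G` are absorbed in the coefficients; the theorem `TH445.OI.l1_family` of the starting files on families of small energy
and Davenport's estimate for `λ` give the cancellation on average over `c` (`U108.LV.sup_dual`), and a pigeonhole argument on
the upper digits gives all segments (`U108.LV.one`).

Definition used, from `Pool.Agent.TH872.GQ` (starting files): `S b D k`: the integers `0 ≤ n < b ^ k` whose `i`-th digit in
base `b` lies in `D i`, for all `i < k`.
-/

namespace Pool.Agent.Results.MP_892e4c_nt.SparseDigitArguments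
open Finset
open Pool.Agent.TH872.GQ (S)
open Polynomial (X)
open scoped Polynomial

/-- the Liouville function on the integers, `λ(0) = 0` -/
noncomputable def lam (m : ℤ) : ℂ := if m = 0 then 0 else (-1) ^ ArithmeticFunction.cardFactors m.natAbs

/-- The polynomial `(F_1 + c_1) ⋯ (F_s + c_s)`. -/
noncomputable def pol {s : ℕ} (F : Fin s → ℤ[X]) (c : Fin s → ℤ) : ℤ[X] := ∏ j, (F j + Polynomial.C (c j))

/-- The sum of `G(n) λ(f(n))` over the `n ∈ S b D k` with `n < y` and `n ≡ a (mod q)` (`0 ≤ a < q`). -/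
noncomputable def total (b k : ℕ) (D : ℕ → Finset ℕ) (G : ℕ → ℂ) (f : ℤ[X]) (y q a : ℕ) : ℂ :=
  ∑ n ∈ (S b D k).filter (fun n => n < y ∧ n % q = a), G n * lam (f.eval (n : ℤ))

/-- the height `b ^ (deg F k)` -/
noncomputable def height (b k : ℕ) (F : ℤ[X]) : ℕ := b ^ (F.natDegree * k)

open Classical in
/-- The number of the vectors `c` of integers with `|c_j| ≤ B height(F_j)` for all `j` for which some initial segment `n < y` of some
residue class modulo some `q ≤ k ^ A` has a `total` larger than `#S / k ^ U`. -/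
noncomputable def exceptions (b k B A U : ℕ) (D : ℕ → Finset ℕ) (G : ℕ → ℂ) {s : ℕ} (F : Fin s → ℤ[X]) : ℕ :=
  ((Fintype.piFinset (fun j : Fin s => Icc (-((B * height b k (F j) : ℕ) : ℤ)) ((B * height b k (F j) : ℕ) : ℤ))).filter
    (fun c : Fin s → ℤ => ∃ y q a : ℕ, 1 ≤ q ∧ q ≤ k ^ A ∧
      (S b D k).card / (k : ℝ) ^ U < ‖total b k D G (pol F c) y q a‖)).card

lemma lam_ev (m : ℤ) : lam m = Pool.Agent.U108.LV.ev Pool.Agent.H373R2.T7.liR m := rfl

lemma lam_norm (m : ℤ) : ‖lam m‖ ≤ 1 := Pool.Agent.U108.LV.ev_norm _ Pool.Agent.H373R2.T7.liR_norm m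

lemma lam_mul (m n : ℤ) : lam (m * n) = lam m * lam n := by
  unfold lam
  rcases eq_or_ne m 0 with h | h
  · simp [h]
  rcases eq_or_ne n 0 with h' | h'
  · simp [h']
  rw [if_neg h, if_neg h', if_neg (mul_ne_zero h h'), Int.natAbs_mul,
    ArithmeticFunction.cardFactors_mul (Int.natAbs_ne_zero.2 h) (Int.natAbs_ne_zero.2 h'), pow_add]

lemma lam_one : lam 1 = 1 := by
  unfold lam
  simp

lemma lam_prod {ι : Type} (t : Finset ι) (g : ι → ℤ) : lam (∏ j ∈ t, g j) = ∏ j ∈ t, lam (g j) := by
  classical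
  induction t using Finset.induction_on with
  | empty => rw [prod_empty, prod_empty, lam_one]
  | insert j t hj ih => rw [prod_insert hj, prod_insert hj, lam_mul, ih]

/-- **The Liouville function at polynomial values, at arguments with restricted digits.** Let `F_1, …, F_s` be polynomials with
integer coefficients, one of them of degree at least two, and let `b ≥ 2`, `B`, `A`, `U` be given. For all large `k`, all sets
`D_0, …, D_{k-1}` of at least two digits in base `b` and ALL functions `G` with `|G| ≤ 1`: for all the vectors `c` with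
`|c_j| ≤ B b ^ (deg F_j k)`, with at most `∏ b ^ (deg F_j k) / k ^ U` exceptions, and all `y`, `q ≤ k ^ A` and `a`, the sum of
`G(n) λ(f(n))`, `f = (F_1 + c_1) ⋯ (F_s + c_s)`, over the `n < y` with `n ≡ a (mod q)` and digits in the sets `D_i` is at most
`#S / k ^ U` in absolute value, where `#S` is the number of all the `n < b ^ k` with digits in the sets `D_i`. -/
theorem result (s : ℕ) (F : Fin s → ℤ[X]) (j₀ : Fin s) (hF : 2 ≤ (F j₀).natDegree) (b B A U : ℕ) (hb : 2 ≤ b) :
    ∃ k₀ : ℕ, ∀ k : ℕ, k₀ ≤ k → ∀ D : ℕ → Finset ℕ, (∀ i < k, D i ⊆ range b ∧ 2 ≤ (D i).card) →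
    ∀ G : ℕ → ℂ, (∀ n, ‖G n‖ ≤ 1) →
      (exceptions b k B A U D G F : ℝ) ≤ (∏ j, (height b k (F j) : ℝ)) / (k : ℝ) ^ U := by
  classical
  obtain ⟨r, hr⟩ : ∃ r, (F j₀).natDegree = r + 2 := ⟨(F j₀).natDegree - 2, by omega⟩
  obtain ⟨k₁, h1⟩ := Pool.Agent.U108.LV.one Pool.Agent.H373R2.T7.liR Pool.Agent.H373R2.T7.liR_norm Pool.Agent.H373R2.T7.sup_liou
    b r B A (U + 1) hb (F j₀) hr
  refine ⟨k₁ + (2 * B + 1) ^ s + 1, fun k hk D hD G hG => ?_⟩
  have hk1 : (1 : ℝ) ≤ k := by exact_mod_cast (by omega : 1 ≤ k)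
  have hk0 : (0 : ℝ) < k := by linarith
  obtain ⟨N, hN⟩ : ∃ N : Fin s → ℕ, N = fun j => height b k (F j) := ⟨_, rfl⟩
  have hN1 : ∀ j, 1 ≤ N j := fun j => by
    rw [hN]
    exact Nat.one_le_pow _ _ (by omega)
  obtain ⟨P, hP⟩ : ∃ P : Finset (Fin s → ℤ), P = (Fintype.piFinset (fun j : Fin s => Icc (-((B * N j : ℕ) : ℤ)) ((B * N j : ℕ) : ℤ))).filter
    (fun c : Fin s → ℤ => ∃ y q a : ℕ, 1 ≤ q ∧ q ≤ k ^ A ∧ (S b D k).card / (k : ℝ) ^ U < ‖total b k D G (pol F c) y q a‖) := ⟨_, rfl⟩
  have hPe : exceptions b k B A U D G F = P.card := by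
    rw [hP, hN]
    rfl
  have hPN : (∏ j, (height b k (F j) : ℝ)) = ∏ j, (N j : ℝ) := by rw [hN]
  rw [hPe, hPN]
  -- the fibres
  have hfib : ∀ c' : Fin s → ℤ, ((P.filter (fun c => Function.update c j₀ 0 = c')).card : ℝ) ≤ N j₀ / (k : ℝ) ^ (U + 1) := by
    intro c'
    obtain ⟨G', hG'⟩ : ∃ G' : ℕ → ℂ, G' = fun n => G n * ∏ j ∈ univ.erase j₀, lam ((F j).eval (n : ℤ) + c' j) := ⟨_, rfl⟩
    have hG'1 : ∀ n, ‖G' n‖ ≤ 1 := by
      intro n
      rw [hG']
      simp only [norm_mul, norm_prod]
      calc ‖G n‖ * ∏ j ∈ univ.erase j₀, ‖lam ((F j).eval (n : ℤ) + c' j)‖ ≤ 1 * 1 :=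
            mul_le_mul (hG n) (prod_le_one (fun _ _ => norm_nonneg _) fun _ _ => lam_norm _) (prod_nonneg fun _ _ => norm_nonneg _) (by norm_num)
        _ = 1 := one_mul 1
    have h2 := h1 k (by omega) D hD G' hG'1
    have hNj : b ^ ((r + 2) * k) = N j₀ := by
      rw [hN]
      simp only [height, hr]
    rw [hNj] at h2
    refine le_trans ?_ h2
    apply Nat.cast_le.2
    apply card_le_card_of_injOn (fun c => c j₀)
    · intro c hc
      rw [mem_coe, mem_filter] at hc
      obtain ⟨hc1, hc2⟩ := hc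
      rw [hP, mem_filter, Fintype.mem_piFinset] at hc1
      obtain ⟨hc3, y, q, a, hq1, hq2, hy⟩ := hc1
      rw [mem_coe, mem_filter]
      refine ⟨hc3 j₀, y, q, a, hq1, hq2, ?_⟩
      have e1 : total b k D G (pol F c) y q a = Pool.Agent.U108.LV.SU b k D G' (Pool.Agent.U108.LV.ev Pool.Agent.H373R2.T7.liR) (F j₀) (c j₀) y q a := by
        unfold total Pool.Agent.U108.LV.SU
        refine sum_congr rfl fun n _ => ?_
        unfold pol
        rw [Polynomial.eval_prod, lam_prod, ← mul_prod_erase univ _ (mem_univ j₀), hG', ← lam_ev]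
        simp only [Polynomial.eval_add, Polynomial.eval_C]
        have e2 : ∏ j ∈ univ.erase j₀, lam ((F j).eval (n : ℤ) + c j) = ∏ j ∈ univ.erase j₀, lam ((F j).eval (n : ℤ) + c' j) := by
          refine prod_congr rfl fun j hj => ?_
          have hj' := (mem_erase.1 hj).1
          have : c' j = c j := by rw [← hc2, Function.update_of_ne hj']
          rw [this]
        rw [e2]
        ring
      rw [← e1]
      refine lt_of_le_of_lt ?_ hy
      apply div_le_div_of_nonneg_left (Nat.cast_nonneg _) (by positivity)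
      exact pow_le_pow_right₀ hk1 (by omega)
    · intro c hc c'' hc'' he
      rw [mem_coe, mem_filter] at hc hc''
      have h3 : Function.update c j₀ 0 = Function.update c'' j₀ 0 := hc.2.trans hc''.2.symm
      funext j
      rcases eq_or_ne j j₀ with hj | hj
      · rw [hj]; exact he
      · have := congrFun h3 j
        rwa [Function.update_of_ne hj, Function.update_of_ne hj] at this
  obtain ⟨Im, hIm⟩ : ∃ Im : Finset (Fin s → ℤ), Im = P.image (fun c => Function.update c j₀ 0) := ⟨_, rfl⟩
  have hImc : (Im.card : ℝ) * N j₀ ≤ (2 * B + 1) ^ s * ∏ j, (N j : ℝ) := by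
    have h2 : Im ⊆ Fintype.piFinset (fun j : Fin s => if j = j₀ then {0} else Icc (-((B * N j : ℕ) : ℤ)) ((B * N j : ℕ) : ℤ)) := by
      intro c hc
      rw [hIm, mem_image] at hc
      obtain ⟨c', hc', rfl⟩ := hc
      rw [hP, mem_filter, Fintype.mem_piFinset] at hc'
      rw [Fintype.mem_piFinset]
      intro j
      split_ifs with hj
      · subst hj
        rw [Function.update_self]
        exact mem_singleton_self _
      · rw [Function.update_of_ne hj]
        exact hc'.1 j
    have h3 := card_le_card h2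
    rw [Fintype.card_piFinset] at h3
    have h4 : (Im.card : ℝ) ≤ ∏ j, (if j = j₀ then (1 : ℝ) else (2 * B + 1) * N j) := by
      have h5 : (Im.card : ℝ) ≤ ((∏ j : Fin s, (if j = j₀ then ({0} : Finset ℤ) else Icc (-((B * N j : ℕ) : ℤ)) ((B * N j : ℕ) : ℤ)).card : ℕ) : ℝ) := by
        exact_mod_cast h3
      refine h5.trans ?_
      rw [Nat.cast_prod]
      apply prod_le_prod (fun _ _ => Nat.cast_nonneg _)
      intro j _
      split_ifs with hj
      · simp
      · rw [Int.card_Icc]
        have h6 : (((B * N j : ℕ) : ℤ) + 1 - -((B * N j : ℕ) : ℤ)).toNat = 2 * (B * N j) + 1 := by omega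
        rw [h6]
        push_cast
        have h7 : (1 : ℝ) ≤ N j := by exact_mod_cast hN1 j
        nlinarith
    have hNj0 : (0 : ℝ) ≤ N j₀ := Nat.cast_nonneg _
    have h8 : (∏ j, (if j = j₀ then (1 : ℝ) else (2 * B + 1) * N j)) * N j₀ ≤ (2 * B + 1) ^ s * ∏ j, (N j : ℝ) := by
      rw [← mul_prod_erase univ _ (mem_univ j₀), if_pos rfl, one_mul]
      have e3 : ∏ j ∈ univ.erase j₀, (if j = j₀ then (1 : ℝ) else (2 * B + 1) * N j) = (2 * B + 1) ^ (s - 1) * ∏ j ∈ univ.erase j₀, (N j : ℝ) := by
        have e4 : ∏ j ∈ univ.erase j₀, (if j = j₀ then (1 : ℝ) else (2 * B + 1) * N j) = ∏ j ∈ univ.erase j₀, ((2 * (B : ℝ) + 1) * N j) :=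
          prod_congr rfl fun j hj => if_neg (mem_erase.1 hj).1
        rw [e4, prod_mul_distrib, prod_const, card_erase_of_mem (mem_univ _), card_univ, Fintype.card_fin]
      rw [e3, ← mul_prod_erase univ (fun j => (N j : ℝ)) (mem_univ j₀)]
      have h9 : (2 * (B : ℝ) + 1) ^ (s - 1) ≤ (2 * B + 1) ^ s := pow_le_pow_right₀ (by have : (0 : ℝ) ≤ B := Nat.cast_nonneg _; linarith) (by omega)
      have h10 : 0 ≤ ∏ j ∈ univ.erase j₀, (N j : ℝ) := prod_nonneg fun _ _ => Nat.cast_nonneg _
      calc (2 * (B : ℝ) + 1) ^ (s - 1) * (∏ j ∈ univ.erase j₀, (N j : ℝ)) * N j₀ =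
            (2 * (B : ℝ) + 1) ^ (s - 1) * ((N j₀ : ℝ) * ∏ j ∈ univ.erase j₀, (N j : ℝ)) := by ring
        _ ≤ _ := mul_le_mul_of_nonneg_right h9 (mul_nonneg hNj0 h10)
    exact (mul_le_mul_of_nonneg_right h4 hNj0).trans h8
  have hsum : (P.card : ℝ) ≤ Im.card * (N j₀ / (k : ℝ) ^ (U + 1)) := by
    have h2 : P.card = ∑ c' ∈ Im, (P.filter (fun c => Function.update c j₀ 0 = c')).card := by
      rw [hIm]
      exact card_eq_sum_card_image (fun c => Function.update c j₀ 0) P
    rw [h2]
    push_cast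
    refine (sum_le_sum fun c' _ => hfib c').trans ?_
    rw [sum_const, nsmul_eq_mul]
  have hkB : (2 * (B : ℝ) + 1) ^ s ≤ k := by
    have : ((2 * B + 1) ^ s : ℕ) ≤ k := by omega
    exact_mod_cast this
  have hPn : 0 ≤ ∏ j, (N j : ℝ) := prod_nonneg fun _ _ => Nat.cast_nonneg _
  calc (P.card : ℝ) ≤ Im.card * (N j₀ / (k : ℝ) ^ (U + 1)) := hsum
    _ = (Im.card * N j₀) / (k : ℝ) ^ (U + 1) := by ring
    _ ≤ (k * ∏ j, (N j : ℝ)) / (k : ℝ) ^ (U + 1) := by
        apply div_le_div_of_nonneg_right _ (by positivity)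
        exact hImc.trans (mul_le_mul_of_nonneg_right hkB hPn)
    _ = (∏ j, (N j : ℝ)) / (k : ℝ) ^ U := by
        rw [pow_succ]
        field_simp

end Pool.Agent.Results.MP_892e4c_nt.SparseDigitArguments
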